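import Pool.Agent.R825.FineBaire

/-!
# A closed Haar-null set not covered by countably many Borel null-finite sets

The group is `X = ∏_{n ≥ 2} ℤ/n` and the closed set is `F = ∏_{n ≥ 2} (ℤ/n \ {0})`.
-/

namespace Pool.Agent.Results.MP_ea2cf4_gt.ClosedHaarNullNotCovered

open Set Filter Topology MeasureTheory

/-- `A ⊆ X` is null-finite: for some sequence `s k → 0`, for each `x` only finitely many `k`
satisfy `x + s k ∈ A`. -/
def NullFinite {X : Type*} [AddCommGroup X] [TopologicalSpace X] (A : Set X) : Prop :=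
  ∃ s : ℕ → X, Tendsto s atTop (𝓝 0) ∧ ∀ x : X, {k | x + s k ∈ A}.Finite

/-- A set `B` is Borel in `X`. -/
def IsBorel {X : Type*} [TopologicalSpace X] (B : Set X) : Prop :=
  @MeasurableSet X (borel X) B

/-- A Borel set `B` is Haar-null (Christensen): for some Borel probability measure `μ`, all
translates of `B` have measure zero. -/
def HaarNull {X : Type*} [AddCommGroup X] [TopologicalSpace X] (B : Set X) : Prop :=
  IsBorel B ∧ ∃ μ : @Measure X (borel X), @IsProbabilityMeasure X (borel X) μ ∧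
    ∀ x : X, μ ((fun y => y + x) '' B) = 0

/-- The group `X = ∏_{n ≥ 2} ℤ/n`. -/
abbrev X : Type := ∀ n : ℕ, ZMod (n + 2)

/-- The closed set `F = ∏_{n ≥ 2} (ℤ/n \ {0})`. -/
def F : Set X := {x | ∀ n, x n ≠ 0}

lemma isClosed_F : IsClosed F := by
  have h : F = ⋂ n, {x : X | x n ≠ 0} := by
    ext x
    simp [F]
  rw [h]
  refine isClosed_iInter fun n => ?_
  have h1 : IsClosed ({0}ᶜ : Set (ZMod (n + 2))) := isClosed_discrete _
  have h2 : Continuous fun x : X => x n := continuous_apply n
  exact h1.preimage h2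

/-- The uniform probability measure on `ℤ/(n+2)`. -/
noncomputable def unif (n : ℕ) : Measure (ZMod (n + 2)) :=
  (PMF.uniformOfFintype (ZMod (n + 2))).toMeasure

instance (n : ℕ) : IsProbabilityMeasure (unif n) := PMF.toMeasure.isProbabilityMeasure _

lemma unif_compl (n : ℕ) (g : ZMod (n + 2)) :
    unif n {g}ᶜ = ((n + 1 : ℕ) : ENNReal) / ((n + 2 : ℕ) : ENNReal) := by
  classical
  have hm : MeasurableSet ({g}ᶜ : Set (ZMod (n + 2))) := (measurableSet_singleton g).compl
  rw [unif, PMF.toMeasure_uniformOfFintype_apply _ hm, ZMod.card]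
  congr 2
  rw [Fintype.card_compl_set]
  simp [ZMod.card]

lemma measure_bound (x : X) (N : ℕ) :
    (Measure.infinitePi unif) ({y : X | ∀ n, y n ≠ x n}) ≤ ((N + 1 : ℕ) : ENNReal)⁻¹ := by
  have h1 : {y : X | ∀ n, y n ≠ x n} ⊆ Set.pi (Finset.range N : Set ℕ) fun n => {x n}ᶜ := by
    intro y hy n _
    exact hy n
  refine (measure_mono h1).trans ?_
  rw [Measure.infinitePi_pi unif fun n _ => (measurableSet_singleton (x n)).compl]
  have h2 : ∀ N : ℕ, (∏ i ∈ Finset.range N, unif i {x i}ᶜ) = ((N + 1 : ℕ) : ENNReal)⁻¹ := by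
    intro N
    induction N with
    | zero => simp
    | succ k ih =>
      rw [Finset.prod_range_succ, ih, unif_compl, div_eq_mul_inv, ← mul_assoc,
        ENNReal.inv_mul_cancel (by simp) (ENNReal.natCast_ne_top _), one_mul]
  exact (h2 N).le

lemma haarNull_F : HaarNull F := by
  refine ⟨?_, ?_⟩
  · unfold IsBorel
    borelize X
    exact isClosed_F.measurableSet
  · have hb : (MeasurableSpace.pi : MeasurableSpace X) = borel X := BorelSpace.measurable_eq
    rw [← hb]
    refine ⟨Measure.infinitePi unif, inferInstance, fun x => ?_⟩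
    have h1 : (fun y => y + x) '' F ⊆ {y : X | ∀ n, y n ≠ x n} := by
      rintro _ ⟨y, hy, rfl⟩ n h
      apply hy n
      have h2 : y n + x n = x n := h
      exact add_eq_right.1 h2
    refine measure_mono_null h1 ?_
    have h3 : Tendsto (fun N : ℕ => ((N + 1 : ℕ) : ENNReal)⁻¹) atTop (𝓝 0) :=
      ENNReal.tendsto_inv_nat_nhds_zero.comp (tendsto_add_atTop_nat 1)
    exact le_antisymm (ge_of_tendsto' h3 fun N => measure_bound x N) zero_le

lemma not_covered : ¬ ∃ B : ℕ → Set X, (∀ k, IsBorel (B k) ∧ NullFinite (B k)) ∧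
    F ⊆ ⋃ k, B k := by
  rintro ⟨B, hB, hcov⟩
  have hcard : ∀ n : ℕ, Nat.card (Multiplicative (ZMod (n + 2))) = n + 2 := fun n =>
    Nat.card_zmod (n + 2)
  have hnt : ∀ n : ℕ, Nontrivial (Multiplicative (ZMod (n + 2))) := by
    intro n
    rw [← Finite.one_lt_card_iff_nontrivial, hcard]
    omega
  refine Pool.Agent.R825.FineBaire.nonidentity_not_covered
    (G := fun n => Multiplicative (ZMod (n + 2))) ?_ ⟨B, fun k => ⟨(hB k).1, ?_⟩, hcov⟩
  · refine tendsto_atTop_mono (fun n => ?_) tendsto_id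
    rw [hcard]
    show n ≤ n + 2
    omega
  · exact (hB k).2

/-- **Negative answer to Q1.**  There are a compact metrizable (hence Polish) abelian group `X` and
a closed Haar-null set `F ⊆ X` which is not covered by countably many Borel null-finite sets. -/
theorem result : ∃ (X : Type) (_ : AddCommGroup X) (_ : TopologicalSpace X)
    (_ : IsTopologicalAddGroup X) (_ : PolishSpace X) (_ : CompactSpace X) (F : Set X),
    IsClosed F ∧ HaarNull F ∧
      ¬ ∃ B : ℕ → Set X, (∀ k, IsBorel (B k) ∧ NullFinite (B k)) ∧ F ⊆ ⋃ k, B k :=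
  ⟨X, inferInstance, inferInstance, inferInstance, inferInstance, inferInstance, F, isClosed_F,
    haarNull_F, not_covered⟩

end Pool.Agent.Results.MP_ea2cf4_gt.ClosedHaarNullNotCovered
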